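import Pool.Agent.Helper185.Man8

namespace Pool.Agent.Results.MP_1abf27_gt.ManifoldInZFC

open Pool.Agent.Helper185.Man Pool.Agent.Helper185.Fat

/-- There is (in ZFC) a connected Hausdorff `2`-manifold, covered by at most `ℵ₁` open sets
homeomorphic to the plane, which has a `G_δ`-diagonal and is not quasi-developable. -/
theorem result : ∃ (M : Type) (_ : TopologicalSpace M), IsMfd M 2 ∧ MfdWeightLeAleph1 M 2 ∧
    HasGdeltaDiagonal M ∧ ¬ QuasiDevelopable M :=
  exists_mfd

end Pool.Agent.Results.MP_1abf27_gt.ManifoldInZFC
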